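import Mathlib

/-! Definitions for tilings of the plane by the two-square tiles `T(x,y)`. -/

namespace Pool.Agent.Lib.MP_15d263_co

/-- The Euclidean plane. -/
abbrev Plane := EuclideanSpace ℝ (Fin 2)

/-- The closed axis-parallel unit square centred at `(a, b)`. -/
def unitSquare (a b : ℝ) : Set Plane := {p | |p 0 - a| ≤ 1 / 2 ∧ |p 1 - b| ≤ 1 / 2}

/-- The tile `T(x, y)`: the union of the closed unit squares centred at `(0,0)` and `(x,y)`. -/
def twoSquareTile (x y : ℤ) : Set Plane := unitSquare 0 0 ∪ unitSquare x y

/-- A tiling of the plane: a countable family of closed sets which cover the plane and have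
pairwise disjoint interiors. -/
structure IsTiling (F : Set (Set Plane)) : Prop where
  countable : F.Countable
  closed : ∀ t ∈ F, IsClosed t
  cover : ⋃₀ F = Set.univ
  disjoint : ∀ s ∈ F, ∀ t ∈ F, s ≠ t → Disjoint (interior s) (interior t)

/-- `F` is a monohedral tiling with prototile `T`: a tiling all of whose tiles are congruent to
`T`, i.e. images of `T` under isometries of the plane (reflections allowed). -/
def IsMonohedral (T : Set Plane) (F : Set (Set Plane)) : Prop :=
  IsTiling F ∧ ∀ t ∈ F, ∃ g : Plane ≃ᵢ Plane, g '' T = t

/-- `g` is a symmetry of `F`: the isometry `g` maps the family `F` onto itself. -/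
def IsSymmetry (F : Set (Set Plane)) (g : Plane ≃ᵢ Plane) : Prop :=
  (fun t : Set Plane => g '' t) '' F = F

/-- `F` is isohedral: its symmetry group acts transitively on its tiles. -/
def IsIsohedral (F : Set (Set Plane)) : Prop :=
  ∀ s ∈ F, ∀ t ∈ F, ∃ g : Plane ≃ᵢ Plane, IsSymmetry F g ∧ g '' s = t

/-- The connected components of a set `t`. -/
def components (t : Set Plane) : Set (Set Plane) :=
  {C | ∃ p ∈ t, C = connectedComponentIn t p}

/-- `F` is an idiomeric tiling with prototile `T`: it is a monohedral tiling with prototile `T`,
it is isohedral, and for every tile `t` the symmetries of `F` that map `t` onto itself act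
transitively on the connected components of `t`. -/
def IsIdiomeric (T : Set Plane) (F : Set (Set Plane)) : Prop :=
  IsMonohedral T F ∧ IsIsohedral F ∧
    ∀ t ∈ F, ∀ C ∈ components t, ∀ D ∈ components t,
      ∃ g : Plane ≃ᵢ Plane, IsSymmetry F g ∧ g '' t = t ∧ g '' C = D

/-- `F` is aligned with the regular tiling whose square centres are the points of `ℤ²`: every
tile is the union of two squares of that regular tiling. -/
def IsGridAligned (F : Set (Set Plane)) : Prop :=
  ∀ t ∈ F, ∃ a b c d : ℤ, t = unitSquare a b ∪ unitSquare c d

end Pool.Agent.Lib.MP_15d263_co
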