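import Pool.Agent.Lib.MP_15d263_co.Defs

/-! Existence of idiomeric tilings from sheared lattices. -/

namespace Pool.Agent.Lib.MP_15d263_co

/-- Translation by `(u, v)`. -/
noncomputable def shift (u v : ℝ) : Plane ≃ᵢ Plane := IsometryEquiv.addRight (!₂[u, v] : Plane)

/-- The half-turn `p ↦ (u, v) - p`. -/
noncomputable def halfTurn (u v : ℝ) : Plane ≃ᵢ Plane := IsometryEquiv.subLeft (!₂[u, v] : Plane)

@[simp] lemma shift_apply_zero (u v : ℝ) (p : Plane) : shift u v p 0 = p 0 + u := by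
  simp [shift]

@[simp] lemma shift_apply_one (u v : ℝ) (p : Plane) : shift u v p 1 = p 1 + v := by
  simp [shift]

@[simp] lemma halfTurn_apply_zero (u v : ℝ) (p : Plane) : halfTurn u v p 0 = u - p 0 := by
  simp [halfTurn]

@[simp] lemma halfTurn_apply_one (u v : ℝ) (p : Plane) : halfTurn u v p 1 = v - p 1 := by
  simp [halfTurn]

lemma mem_unitSquare {a b : ℝ} {p : Plane} :
    p ∈ unitSquare a b ↔ |p 0 - a| ≤ 1 / 2 ∧ |p 1 - b| ≤ 1 / 2 := Iff.rfl

lemma image_eq_of_iff (g : Plane ≃ᵢ Plane) (A B : Set Plane)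
    (h : ∀ p, p ∈ A ↔ g p ∈ B) : g '' A = B := by
  ext q
  constructor
  · rintro ⟨p, hp, rfl⟩
    exact (h p).1 hp
  · intro hq
    refine ⟨g.symm q, ?_, by simp⟩
    rw [h]
    simpa using hq

lemma shift_unitSquare (u v a b : ℝ) :
    shift u v '' unitSquare a b = unitSquare (a + u) (b + v) := by
  apply image_eq_of_iff
  intro p
  simp only [mem_unitSquare, shift_apply_zero, shift_apply_one]
  rw [show p 0 + u - (a + u) = p 0 - a by ring, show p 1 + v - (b + v) = p 1 - b by ring]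

lemma halfTurn_unitSquare (u v a b : ℝ) :
    halfTurn u v '' unitSquare a b = unitSquare (u - a) (v - b) := by
  apply image_eq_of_iff
  intro p
  simp only [mem_unitSquare, halfTurn_apply_zero, halfTurn_apply_one]
  rw [show u - p 0 - (u - a) = -(p 0 - a) by ring, show v - p 1 - (v - b) = -(p 1 - b) by ring,
    abs_neg, abs_neg]

lemma isClosed_unitSquare (a b : ℝ) : IsClosed (unitSquare a b) := by
  have h0 : Continuous fun p : Plane => |p 0 - a| := by fun_prop
  have h1 : Continuous fun p : Plane => |p 1 - b| := by fun_prop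
  exact (isClosed_le h0 continuous_const).inter (isClosed_le h1 continuous_const)

lemma convex_unitSquare (a b : ℝ) : Convex ℝ (unitSquare a b) := by
  have : unitSquare a b = {p : Plane | a - 1/2 ≤ p 0} ∩ {p | p 0 ≤ a + 1/2} ∩
      ({p | b - 1/2 ≤ p 1} ∩ {p | p 1 ≤ b + 1/2}) := by
    ext p
    simp only [mem_unitSquare, abs_le, Set.mem_inter_iff, Set.mem_ofPred_eq]
    constructor
    · rintro ⟨⟨h1, h2⟩, h3, h4⟩
      exact ⟨⟨by linarith, by linarith⟩, by linarith, by linarith⟩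
    · rintro ⟨⟨h1, h2⟩, h3, h4⟩
      exact ⟨⟨by linarith, by linarith⟩, by linarith, by linarith⟩
  rw [this]
  have hl : ∀ i : Fin 2, IsLinearMap ℝ (fun p : Plane => p i) := fun i =>
    ⟨fun p q => by simp, fun c p => by simp⟩
  exact ((convex_halfSpace_ge (hl 0) _).inter (convex_halfSpace_le (hl 0) _)).inter
    ((convex_halfSpace_ge (hl 1) _).inter (convex_halfSpace_le (hl 1) _))

/-- Tiles of the sheared lattice tiling. -/
noncomputable def tl (c : ℝ) (X Y : ℤ) (q : ℤ × ℤ) : Set Plane :=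
  unitSquare (2 * q.1 + c * q.2) q.2 ∪ unitSquare (2 * q.1 + c * q.2 + X) (q.2 + Y)

/-- The sheared lattice tiling. -/
noncomputable def lat (c : ℝ) (X Y : ℤ) : Set (Set Plane) := Set.range (tl c X Y)

lemma isSymmetry_of_surj {c : ℝ} {X Y : ℤ} (g : Plane ≃ᵢ Plane) (φ : ℤ × ℤ → ℤ × ℤ)
    (hφ : Function.Surjective φ) (h : ∀ q, g '' tl c X Y q = tl c X Y (φ q)) :
    IsSymmetry (lat c X Y) g := by
  unfold IsSymmetry lat
  ext t
  constructor
  · rintro ⟨s, ⟨q, rfl⟩, rfl⟩
    exact ⟨φ q, (h q).symm⟩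
  · rintro ⟨q, rfl⟩
    obtain ⟨q', rfl⟩ := hφ q
    exact ⟨tl c X Y q', ⟨q', rfl⟩, h q'⟩

lemma shift_tl (c : ℝ) (X Y : ℤ) (r q : ℤ × ℤ) :
    shift (2 * r.1 + c * r.2) r.2 '' tl c X Y q = tl c X Y (q + r) := by
  unfold tl
  rw [Set.image_union, shift_unitSquare, shift_unitSquare]
  congr 2 <;> simp <;> ring

lemma halfTurn_tl (c : ℝ) (X Y : ℤ) (r q : ℤ × ℤ) :
    halfTurn (2 * r.1 + c * r.2 + X) (r.2 + Y) '' tl c X Y q = tl c X Y (r - q) := by
  unfold tl
  rw [Set.image_union, halfTurn_unitSquare, halfTurn_unitSquare, Set.union_comm]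
  congr 2 <;> simp <;> ring

lemma isSymmetry_shift (c : ℝ) (X Y : ℤ) (r : ℤ × ℤ) :
    IsSymmetry (lat c X Y) (shift (2 * r.1 + c * r.2) r.2) :=
  isSymmetry_of_surj _ (fun q => q + r) (fun q => ⟨q - r, by simp⟩) (shift_tl c X Y r)

lemma isSymmetry_halfTurn (c : ℝ) (X Y : ℤ) (r : ℤ × ℤ) :
    IsSymmetry (lat c X Y) (halfTurn (2 * r.1 + c * r.2 + X) (r.2 + Y)) :=
  isSymmetry_of_surj _ (fun q => r - q) (fun q => ⟨r - q, by simp⟩) (halfTurn_tl c X Y r)

lemma exists_generic {U : Set Plane} (hU : IsOpen U) (hne : U.Nonempty) {A B : Set ℝ}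
    (hA : A.Countable) (hB : B.Countable) : ∃ q ∈ U, q 0 ∉ A ∧ q 1 ∉ B := by
  let f : ℝ × ℝ → Plane := fun p => !₂[p.1, p.2]
  have hf : Continuous f := by
    unfold f
    fun_prop
  have hV : IsOpen (f ⁻¹' U) := hU.preimage hf
  have hVne : (f ⁻¹' U).Nonempty := by
    obtain ⟨q, hq⟩ := hne
    refine ⟨(q 0, q 1), ?_⟩
    have : f (q 0, q 1) = q := by
      ext i
      fin_cases i <;> simp [f]
    simpa [this] using hq
  have hd : Dense (Aᶜ ×ˢ Bᶜ : Set (ℝ × ℝ)) := (hA.dense_compl ℝ).prod (hB.dense_compl ℝ)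
  obtain ⟨p, hp1, hp2⟩ := hd.inter_open_nonempty _ hV hVne
  refine ⟨f p, hp1, ?_, ?_⟩
  · simpa [f] using hp2.1
  · simpa [f] using hp2.2

lemma cell_unique {c : ℝ} {p : Plane} {i j i' j' : ℤ}
    (h0 : p 0 ∉ Set.range fun r : ℤ × ℤ => (r.1 : ℝ) + c * r.2 + 1 / 2)
    (h1 : p 1 ∉ Set.range fun r : ℤ => (r : ℝ) + 1 / 2)
    (hp : p ∈ unitSquare (i + c * j) j) (hp' : p ∈ unitSquare (i' + c * j') j') :
    i = i' ∧ j = j' := by
  obtain ⟨hp0, hp1⟩ := hp
  obtain ⟨hp0', hp1'⟩ := hp'
  rw [abs_le] at hp0 hp1 hp0' hp1'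
  have hj : j = j' := by
    rcases lt_trichotomy j j' with hlt | heq | hlt
    · exfalso
      have h2 : (j : ℝ) + 1 ≤ j' := by exact_mod_cast hlt
      exact h1 ⟨j, by simp only; linarith⟩
    · exact heq
    · exfalso
      have h2 : (j' : ℝ) + 1 ≤ j := by exact_mod_cast hlt
      exact h1 ⟨j', by simp only; linarith⟩
  subst hj
  refine ⟨?_, rfl⟩
  rcases lt_trichotomy i i' with hlt | heq | hlt
  · exfalso
    have h2 : (i : ℝ) + 1 ≤ i' := by exact_mod_cast hlt
    exact h0 ⟨(i, j), by simp only; linarith⟩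
  · exact heq
  · exfalso
    have h2 : (i' : ℝ) + 1 ≤ i := by exact_mod_cast hlt
    exact h0 ⟨(i', j), by simp only; linarith⟩

lemma tl_eq {c : ℝ} {X Y o : ℤ} (ho : (X : ℝ) - c * Y = o) (q : ℤ × ℤ) :
    tl c X Y q = unitSquare ((2 * q.1 : ℤ) + c * q.2) q.2 ∪
      unitSquare ((2 * q.1 + o : ℤ) + c * (q.2 + Y : ℤ)) (q.2 + Y : ℤ) := by
  unfold tl
  congr 2
  · push_cast
    ring
  · push_cast
    rw [← ho]
    ring
  · push_cast
    ring

lemma lat_isTiling {c : ℝ} {X Y o : ℤ} (ho : (X : ℝ) - c * Y = o) (hodd : Odd o) :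
    IsTiling (lat c X Y) where
  countable := Set.countable_range _
  closed := by
    rintro _ ⟨q, rfl⟩
    exact (isClosed_unitSquare _ _).union (isClosed_unitSquare _ _)
  cover := by
    rw [Set.eq_univ_iff_forall]
    intro p
    have hj := abs_sub_round (p 1)
    have hi := abs_sub_round (p 0 - c * round (p 1))
    set j : ℤ := round (p 1) with hjdef
    set i : ℤ := round (p 0 - c * j) with hidef
    rw [Set.mem_sUnion]
    rcases Int.even_or_odd i with he | ho'
    · obtain ⟨m, hm⟩ := he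
      refine ⟨tl c X Y (m, j), ⟨(m, j), rfl⟩, ?_⟩
      rw [tl_eq ho]
      left
      refine ⟨?_, hj⟩
      have : (p 0 - ((2 * m : ℤ) + c * j)) = p 0 - c * j - i := by
        rw [hm]; push_cast; ring
      simpa only [this] using hi
    · obtain ⟨m, hm⟩ := ho'.sub_odd hodd
      refine ⟨tl c X Y (m, j - Y), ⟨(m, j - Y), rfl⟩, ?_⟩
      rw [tl_eq ho]
      right
      have h2 : 2 * m + o = i := by omega
      simp only [sub_add_cancel, h2]
      refine ⟨?_, hj⟩
      have : (p 0 - ((i : ℤ) + c * j)) = p 0 - c * j - i := by ring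
      simpa only [this] using hi
  disjoint := by
    rintro _ ⟨q, rfl⟩ _ ⟨q', rfl⟩ hne
    by_contra hdis
    rw [Set.not_disjoint_iff_nonempty_inter] at hdis
    obtain ⟨p, ⟨hp1, hp2⟩, hg0, hg1⟩ := exists_generic (isOpen_interior.inter isOpen_interior) hdis
      (Set.countable_range fun r : ℤ × ℤ => (r.1 : ℝ) + c * r.2 + 1 / 2)
      (Set.countable_range fun r : ℤ => (r : ℝ) + 1 / 2)
    apply hne
    have hp1 := interior_subset hp1
    have hp2 := interior_subset hp2
    rw [tl_eq ho] at hp1 hp2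
    suffices q = q' by rw [this]
    rcases hp1 with hp1 | hp1 <;> rcases hp2 with hp2 | hp2
    · obtain ⟨h1, h2⟩ := cell_unique hg0 hg1 hp1 hp2
      ext <;> omega
    · obtain ⟨h1, h2⟩ := cell_unique hg0 hg1 hp1 hp2
      obtain ⟨k, hk⟩ := hodd
      omega
    · obtain ⟨h1, h2⟩ := cell_unique hg0 hg1 hp1 hp2
      obtain ⟨k, hk⟩ := hodd
      omega
    · obtain ⟨h1, h2⟩ := cell_unique hg0 hg1 hp1 hp2
      ext <;> omega

lemma tl_zero (c : ℝ) (X Y : ℤ) : tl c X Y 0 = twoSquareTile X Y := by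
  unfold tl twoSquareTile
  simp

lemma components_eq_of_preconnected {t A : Set Plane} (hA : IsPreconnected A) (hAt : A ⊆ t)
    {p q : Plane} (hp : p ∈ A) (hq : q ∈ A) :
    connectedComponentIn t p = connectedComponentIn t q := by
  apply connectedComponentIn_eq
  exact hA.subset_connectedComponentIn hp hAt hq

lemma image_component (g : Plane ≃ᵢ Plane) {t : Set Plane} (hg : g '' t = t) {p : Plane}
    (hp : p ∈ t) : g '' connectedComponentIn t p = connectedComponentIn t (g p) := by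
  have := g.toHomeomorph.image_connectedComponentIn (s := t) hp
  have h2 : (g.toHomeomorph : Plane → Plane) = g := rfl
  rw [h2] at this
  rw [this, hg]

/-- The sheared lattice tiling is idiomeric. -/
theorem lat_isIdiomeric {c : ℝ} {X Y o : ℤ} (ho : (X : ℝ) - c * Y = o) (hodd : Odd o) :
    IsIdiomeric (twoSquareTile X Y) (lat c X Y) := by
  refine ⟨⟨lat_isTiling ho hodd, ?_⟩, ?_, ?_⟩
  · rintro _ ⟨q, rfl⟩
    refine ⟨shift (2 * q.1 + c * q.2) q.2, ?_⟩
    rw [← tl_zero c X Y, shift_tl, zero_add]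
  · rintro _ ⟨q, rfl⟩ _ ⟨q', rfl⟩
    refine ⟨_, isSymmetry_shift c X Y (q' - q), ?_⟩
    rw [shift_tl]
    congr 1
    abel
  · rintro _ ⟨q, rfl⟩ C ⟨p, hp, rfl⟩ D ⟨p', hp', rfl⟩
    set A := unitSquare (2 * q.1 + c * q.2) q.2 with hA
    set B := unitSquare (2 * q.1 + c * q.2 + X) (q.2 + Y) with hB
    have hAB : tl c X Y q = A ∪ B := rfl
    have hAc : IsPreconnected A := (convex_unitSquare _ _).isPreconnected
    have hBc : IsPreconnected B := (convex_unitSquare _ _).isPreconnected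
    have hAt : A ⊆ tl c X Y q := Set.subset_union_left
    have hBt : B ⊆ tl c X Y q := Set.subset_union_right
    -- the identity is a symmetry
    have hr : ∀ S : Set Plane, (IsometryEquiv.refl Plane) '' S = S := fun S => Set.image_id S
    have hid : IsSymmetry (lat c X Y) (IsometryEquiv.refl Plane) := by
      unfold IsSymmetry
      simp only [hr]
      exact Set.image_id _
    have hidt : (IsometryEquiv.refl Plane) '' tl c X Y q = tl c X Y q := hr _
    -- the half-turn
    set h : Plane ≃ᵢ Plane := halfTurn (2 * (q + q).1 + c * (q + q).2 + X) ((q + q).2 + Y) with hh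
    have hsym : IsSymmetry (lat c X Y) h := by
      have := isSymmetry_halfTurn c X Y (q + q)
      simpa [hh] using this
    have hht : h '' tl c X Y q = tl c X Y q := by
      have := halfTurn_tl c X Y (q + q) q
      simp only [add_sub_cancel_right] at this
      simpa [hh] using this
    have hhA : h '' A = B := by
      rw [hh, hA, hB, halfTurn_unitSquare]
      congr 1 <;> simp <;> ring
    have hhB : h '' B = A := by
      rw [hh, hA, hB, halfTurn_unitSquare]
      congr 1 <;> simp <;> ring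
    rcases hp with hpA | hpB <;> rcases hp' with hpA' | hpB'
    · exact ⟨_, hid, hidt, by
        rw [hr]
        exact components_eq_of_preconnected hAc hAt hpA hpA'⟩
    · refine ⟨h, hsym, hht, ?_⟩
      rw [image_component h hht (hAt hpA)]
      exact components_eq_of_preconnected hBc hBt (hhA ▸ Set.mem_image_of_mem h hpA) hpB'
    · refine ⟨h, hsym, hht, ?_⟩
      rw [image_component h hht (hBt hpB)]
      exact components_eq_of_preconnected hAc hAt (hhB ▸ Set.mem_image_of_mem h hpB) hpA'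
    · exact ⟨_, hid, hidt, by
        rw [hr]
        exact components_eq_of_preconnected hBc hBt hpB hpB'⟩

/-- Reflection in the diagonal. -/
noncomputable def diag : Plane ≃ᵢ Plane :=
  (LinearIsometryEquiv.piLpCongrLeft 2 ℝ ℝ (Equiv.swap (0 : Fin 2) 1)).toIsometryEquiv

lemma diag_apply_zero (p : Plane) : diag p 0 = p 1 := by
  simp [diag, LinearIsometryEquiv.piLpCongrLeft_apply]

lemma diag_apply_one (p : Plane) : diag p 1 = p 0 := by
  simp [diag, LinearIsometryEquiv.piLpCongrLeft_apply]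

lemma diag_unitSquare (a b : ℝ) : diag '' unitSquare a b = unitSquare b a := by
  apply image_eq_of_iff
  intro p
  simp only [mem_unitSquare, diag_apply_zero, diag_apply_one]
  tauto

lemma diag_tile (x y : ℤ) : diag '' twoSquareTile x y = twoSquareTile y x := by
  unfold twoSquareTile
  rw [Set.image_union, diag_unitSquare, diag_unitSquare]

lemma IsIdiomeric.swap {x y : ℤ} {F : Set (Set Plane)} (h : IsIdiomeric (twoSquareTile x y) F) :
    IsIdiomeric (twoSquareTile y x) F := by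
  refine ⟨⟨h.1.1, ?_⟩, h.2⟩
  intro t ht
  obtain ⟨g, hg⟩ := h.1.2 t ht
  refine ⟨diag.trans g, ?_⟩
  have h2 : (diag.trans g : Plane → Plane) = g ∘ diag := rfl
  rw [← hg, h2, Set.image_comp, diag_tile]

end Pool.Agent.Lib.MP_15d263_co
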