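import Pool.Agent.Lib.MP_15d263_co.Existence

/-! Non-existence of grid-aligned idiomeric tilings when both coordinates are even. -/

namespace Pool.Agent.Lib.MP_15d263_co

/-- The centre point `(a, b)`. -/
noncomputable def pt (a b : ℝ) : Plane := !₂[a, b]

@[simp] lemma pt_zero (a b : ℝ) : pt a b 0 = a := by simp [pt]
@[simp] lemma pt_one (a b : ℝ) : pt a b 1 = b := by simp [pt]

lemma dist_sq_eq (p q : Plane) : dist p q ^ 2 = (p 0 - q 0) ^ 2 + (p 1 - q 1) ^ 2 := by
  rw [EuclideanSpace.dist_eq, Real.sq_sqrt (Finset.sum_nonneg fun i _ => sq_nonneg _)]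
  simp [Real.dist_eq, sq_abs]

lemma plane_ext {p q : Plane} (h0 : p 0 = q 0) (h1 : p 1 = q 1) : p = q := by
  ext i
  fin_cases i
  · exact h0
  · exact h1

lemma pt_mem (a b : ℝ) : pt a b ∈ unitSquare a b := by
  simp [mem_unitSquare]

/-- The centre of a unit square is the only point at distance at most `√2/2` from all its
points. -/
lemma center_unique {a b : ℝ} {z : Plane}
    (h : ∀ p ∈ unitSquare a b, dist p z ^ 2 ≤ 1 / 2) : z = pt a b := by
  have h1 := h (pt (a + 1/2) (b + 1/2)) (by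
    simp only [mem_unitSquare, pt_zero, pt_one, add_sub_cancel_left]; norm_num [abs_of_pos])
  have h2 := h (pt (a - 1/2) (b - 1/2)) (by
    simp only [mem_unitSquare, pt_zero, pt_one, sub_sub_cancel_left]; norm_num [abs_of_pos])
  rw [dist_sq_eq] at h1 h2
  simp only [pt_zero, pt_one] at h1 h2
  have h3 : (z 0 - a) ^ 2 + (z 1 - b) ^ 2 ≤ 0 := by nlinarith
  have h4 : z 0 - a = 0 := by nlinarith [sq_nonneg (z 0 - a), sq_nonneg (z 1 - b)]
  have h5 : z 1 - b = 0 := by nlinarith [sq_nonneg (z 0 - a), sq_nonneg (z 1 - b)]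
  exact plane_ext (by simp; linarith) (by simp; linarith)

lemma center_dist {a b : ℝ} {p : Plane} (hp : p ∈ unitSquare a b) :
    dist p (pt a b) ^ 2 ≤ 1 / 2 := by
  rw [dist_sq_eq]
  obtain ⟨h1, h2⟩ := hp
  rw [abs_le] at h1 h2
  simp only [pt_zero, pt_one]
  nlinarith

/-- An isometry mapping one unit square onto another maps centre to centre. -/
lemma map_center (g : Plane ≃ᵢ Plane) {a b c d : ℝ}
    (h : g '' unitSquare a b = unitSquare c d) : g (pt a b) = pt c d := by
  apply center_unique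
  intro p hp
  rw [← h] at hp
  obtain ⟨q, hq, rfl⟩ := hp
  rw [g.dist_eq]
  exact center_dist hq

lemma unitSquare_inter {a b c d : ℤ} (h : (unitSquare (a : ℝ) b ∩ unitSquare (c : ℝ) d) = ∅) :
    ¬ (|a - c| ≤ 1 ∧ |b - d| ≤ 1) := by
  rintro ⟨h1, h2⟩
  have h1' : |(a : ℝ) - c| ≤ 1 := by exact_mod_cast h1
  have h2' : |(b : ℝ) - d| ≤ 1 := by exact_mod_cast h2
  rw [abs_le] at h1' h2'
  have : pt (((a : ℝ) + c) / 2) (((b : ℝ) + d) / 2) ∈
      (unitSquare (a : ℝ) b ∩ unitSquare (c : ℝ) d) := by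
    simp only [Set.mem_inter_iff, mem_unitSquare, pt_zero, pt_one, abs_le]
    refine ⟨⟨⟨?_, ?_⟩, ?_, ?_⟩, ⟨?_, ?_⟩, ?_, ?_⟩ <;> linarith
  rw [h] at this
  exact this

/-- Components of a union of two disjoint unit squares. -/
lemma component_eq {a b c d : ℝ} (h : Disjoint (unitSquare a b) (unitSquare c d)) {p : Plane}
    (hp : p ∈ unitSquare a b) :
    connectedComponentIn (unitSquare a b ∪ unitSquare c d) p = unitSquare a b := by
  apply Set.Subset.antisymm
  · have hpre : IsPreconnected (connectedComponentIn (unitSquare a b ∪ unitSquare c d) p) :=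
      isPreconnected_connectedComponentIn
    have hsub := connectedComponentIn_subset (unitSquare a b ∪ unitSquare c d) p
    have hmem : p ∈ connectedComponentIn (unitSquare a b ∪ unitSquare c d) p :=
      mem_connectedComponentIn (Or.inl hp)
    by_contra hns
    obtain ⟨q, hq, hqn⟩ := Set.not_subset.1 hns
    have hq' : q ∈ unitSquare c d := (hsub hq).resolve_left hqn
    obtain ⟨r, hr1, hr2, hr3⟩ := (isPreconnected_closed_iff.1 hpre) _ _
      (isClosed_unitSquare a b) (isClosed_unitSquare c d) hsub ⟨p, hmem, hp⟩ ⟨q, hq, hq'⟩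
    exact Set.disjoint_left.1 h hr2 hr3
  · exact (convex_unitSquare a b).isPreconnected.subset_connectedComponentIn hp
      Set.subset_union_left

lemma component_eq' {a b c d : ℝ} (h : Disjoint (unitSquare a b) (unitSquare c d)) {p : Plane}
    (hp : p ∈ unitSquare c d) :
    connectedComponentIn (unitSquare a b ∪ unitSquare c d) p = unitSquare c d := by
  rw [Set.union_comm]
  exact component_eq h.symm hp

lemma tile_disjoint {x y : ℤ} (h : 2 ≤ max |x| |y|) :
    Disjoint (unitSquare 0 0) (unitSquare (x : ℝ) y) := by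
  rw [Set.disjoint_left]
  rintro p ⟨h1, h2⟩ ⟨h3, h4⟩
  rw [abs_le] at h1 h2 h3 h4
  have hx : |(x : ℝ)| ≤ 1 := by rw [abs_le]; constructor <;> linarith
  have hy : |(y : ℝ)| ≤ 1 := by rw [abs_le]; constructor <;> linarith
  have hx' : |x| ≤ 1 := by exact_mod_cast hx
  have hy' : |y| ≤ 1 := by exact_mod_cast hy
  have := max_le hx' hy'
  omega

/-- A union of two unit squares congruent to `T(x,y)` consists of disjoint squares. -/
lemma disjoint_of_congruent {x y : ℤ} (h : 2 ≤ max |x| |y|) {a b c d : ℝ} (g : Plane ≃ᵢ Plane)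
    (hg : g '' twoSquareTile x y = unitSquare a b ∪ unitSquare c d) :
    Disjoint (unitSquare a b) (unitSquare c d) := by
  by_contra hnd
  rw [Set.not_disjoint_iff] at hnd
  obtain ⟨r, hr1, hr2⟩ := hnd
  have hpre : IsPreconnected (unitSquare a b ∪ unitSquare c d) :=
    IsPreconnected.union r hr1 hr2 (convex_unitSquare a b).isPreconnected
      (convex_unitSquare c d).isPreconnected
  have hpre2 : IsPreconnected (twoSquareTile x y) := by
    have h1 : g.symm '' (g '' twoSquareTile x y) = twoSquareTile x y := by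
      rw [← Set.image_comp]
      have : (g.symm ∘ g : Plane → Plane) = id := by ext1 p; simp
      rw [this, Set.image_id]
    rw [← h1, hg]
    exact hpre.image _ g.symm.continuous.continuousOn
  obtain ⟨q, -, hq1, hq2⟩ := (isPreconnected_closed_iff.1 hpre2) _ _
    (isClosed_unitSquare 0 0) (isClosed_unitSquare x y) (le_refl _)
    ⟨pt 0 0, Or.inl (pt_mem 0 0), pt_mem 0 0⟩ ⟨pt x y, Or.inr (pt_mem _ _), pt_mem _ _⟩
  exact Set.disjoint_left.1 (tile_disjoint h) hq1 hq2

/-- If an isometry maps one union of two disjoint squares onto another one, it maps each square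
onto a square, hence centres to centres. -/
lemma map_two_squares (g : Plane ≃ᵢ Plane) {a b c d a' b' c' d' : ℝ}
    (h : Disjoint (unitSquare a b) (unitSquare c d))
    (h' : Disjoint (unitSquare a' b') (unitSquare c' d'))
    (hg : g '' (unitSquare a b ∪ unitSquare c d) = unitSquare a' b' ∪ unitSquare c' d') :
    (g (pt a b) = pt a' b' ∧ g (pt c d) = pt c' d') ∨
      (g (pt a b) = pt c' d' ∧ g (pt c d) = pt a' b') := by
  have key : ∀ p ∈ unitSquare a b ∪ unitSquare c d,
      g '' connectedComponentIn (unitSquare a b ∪ unitSquare c d) p =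
        connectedComponentIn (unitSquare a' b' ∪ unitSquare c' d') (g p) := by
    intro p hp
    have := g.toHomeomorph.image_connectedComponentIn
      (s := unitSquare a b ∪ unitSquare c d) hp
    have h2 : (g.toHomeomorph : Plane → Plane) = g := rfl
    rw [h2] at this
    rw [this, hg]
  have k1 := key (pt a b) (Or.inl (pt_mem a b))
  have k2 := key (pt c d) (Or.inr (pt_mem c d))
  rw [component_eq h (pt_mem a b)] at k1
  rw [component_eq' h (pt_mem c d)] at k2
  have m1 : g (pt a b) ∈ unitSquare a' b' ∪ unitSquare c' d' := by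
    rw [← hg]; exact Set.mem_image_of_mem g (Or.inl (pt_mem a b))
  have m2 : g (pt c d) ∈ unitSquare a' b' ∪ unitSquare c' d' := by
    rw [← hg]; exact Set.mem_image_of_mem g (Or.inr (pt_mem c d))
  have hdis : Disjoint (g '' unitSquare a b) (g '' unitSquare c d) :=
    (Set.disjoint_image_iff g.injective).2 h
  rcases m1 with m1 | m1 <;> rcases m2 with m2 | m2
  · exfalso
    rw [component_eq h' m1] at k1
    rw [component_eq h' m2] at k2
    rw [k1, k2] at hdis
    exact Set.disjoint_left.1 hdis m1 m1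
  · left
    rw [component_eq h' m1] at k1
    rw [component_eq' h' m2] at k2
    exact ⟨map_center g k1, map_center g k2⟩
  · right
    rw [component_eq' h' m1] at k1
    rw [component_eq h' m2] at k2
    exact ⟨map_center g k1, map_center g k2⟩
  · exfalso
    rw [component_eq' h' m1] at k1
    rw [component_eq' h' m2] at k2
    rw [k1, k2] at hdis
    exact Set.disjoint_left.1 hdis m1 m1

/-- The point of the plane with integer coordinates `z`. -/
noncomputable def ipt (z : ℤ × ℤ) : Plane := pt z.1 z.2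

/-- The union of the two unit squares centred at the integer points `z` and `w`. -/
noncomputable def two (z w : ℤ × ℤ) : Set Plane :=
  unitSquare (z.1 : ℝ) z.2 ∪ unitSquare (w.1 : ℝ) w.2

lemma two_comm (z w : ℤ × ℤ) : two z w = two w z := Set.union_comm _ _

lemma ipt_injective : Function.Injective ipt := by
  intro z w h
  have h0 := congrArg (fun p : Plane => p 0) h
  have h1 := congrArg (fun p : Plane => p 1) h
  simp only [ipt, pt_zero, pt_one] at h0 h1
  ext
  · exact_mod_cast h0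
  · exact_mod_cast h1

lemma int_eq_of_near {m n : ℤ} {r : ℝ} (h1 : |r - m| ≤ 1 / 2) (h2 : |r - n| < 1 / 2) : m = n := by
  rw [abs_le] at h1
  rw [abs_lt] at h2
  have h3 : (m : ℝ) < n + 1 := by linarith
  have h4 : (n : ℝ) < m + 1 := by linarith
  have h3' : m < n + 1 := by exact_mod_cast h3
  have h4' : n < m + 1 := by exact_mod_cast h4
  omega

/-- The open unit square. -/
lemma isOpen_openSquare (a b : ℝ) : IsOpen {p : Plane | |p 0 - a| < 1 / 2 ∧ |p 1 - b| < 1 / 2} := by
  have h0 : Continuous fun p : Plane => |p 0 - a| := by fun_prop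
  have h1 : Continuous fun p : Plane => |p 1 - b| := by fun_prop
  exact (isOpen_lt h0 continuous_const).inter (isOpen_lt h1 continuous_const)

lemma ipt_mem_interior {z : ℤ × ℤ} {t : Set Plane} (h : unitSquare (z.1 : ℝ) z.2 ⊆ t) :
    ipt z ∈ interior t := by
  rw [mem_interior]
  refine ⟨_, ?_, isOpen_openSquare z.1 z.2, ?_⟩
  · intro p hp
    exact h ⟨hp.1.le, hp.2.le⟩
  · simp [ipt]

lemma mem_square_iff {z w : ℤ × ℤ} : ipt z ∈ unitSquare (w.1 : ℝ) w.2 ↔ z = w := by
  constructor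
  · rintro ⟨h1, h2⟩
    simp only [ipt, pt_zero, pt_one] at h1 h2
    have h1' := int_eq_of_near h1 (by simp : |(z.1 : ℝ) - z.1| < 1 / 2)
    have h2' := int_eq_of_near h2 (by simp : |(z.2 : ℝ) - z.2| < 1 / 2)
    ext
    · exact h1'.symm
    · exact h2'.symm
  · rintro rfl
    exact pt_mem _ _

/-- The hypotheses on the tiling that are used in the non-existence proof. -/
structure Good (x y : ℤ) (F : Set (Set Plane)) : Prop where
  hxy : 2 ≤ max |x| |y|
  idio : IsIdiomeric (twoSquareTile x y) F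
  grid : IsGridAligned F

/-- `z` and `w` are the centres of the two squares of a tile. -/
def Partner (F : Set (Set Plane)) (z w : ℤ × ℤ) : Prop := z ≠ w ∧ two z w ∈ F

lemma Partner.symm {F : Set (Set Plane)} {z w : ℤ × ℤ} (h : Partner F z w) : Partner F w z :=
  ⟨h.1.symm, by rw [two_comm]; exact h.2⟩

lemma Good.disjoint_two {x y : ℤ} {F : Set (Set Plane)} (hF : Good x y F) {z w : ℤ × ℤ}
    (h : two z w ∈ F) : Disjoint (unitSquare (z.1 : ℝ) z.2) (unitSquare (w.1 : ℝ) w.2) := by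
  obtain ⟨g, hg⟩ := hF.idio.1.2 _ h
  exact disjoint_of_congruent hF.hxy g hg

lemma Good.grid' {x y : ℤ} {F : Set (Set Plane)} (hF : Good x y F) {t : Set Plane} (ht : t ∈ F) :
    ∃ z w : ℤ × ℤ, Partner F z w ∧ t = two z w := by
  obtain ⟨a, b, c, d, rfl⟩ := hF.grid t ht
  refine ⟨(a, b), (c, d), ⟨?_, ht⟩, rfl⟩
  intro h
  have h1 := hF.disjoint_two (z := (a, b)) (w := (c, d)) ht
  rw [← h] at h1
  exact Set.disjoint_left.1 h1 (pt_mem _ _) (pt_mem _ _)

lemma Good.exists_partner {x y : ℤ} {F : Set (Set Plane)} (hF : Good x y F) (z : ℤ × ℤ) :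
    ∃ w, Partner F z w := by
  have hz : ipt z ∈ ⋃₀ F := by rw [hF.idio.1.1.cover]; trivial
  obtain ⟨t, ht, hzt⟩ := hz
  obtain ⟨u, v, huv, rfl⟩ := hF.grid' ht
  rcases hzt with h | h
  · rw [mem_square_iff] at h
    exact ⟨v, h ▸ huv⟩
  · rw [mem_square_iff] at h
    exact ⟨u, h ▸ huv.symm⟩

lemma Good.partner_unique {x y : ℤ} {F : Set (Set Plane)} (hF : Good x y F) {z w w' : ℤ × ℤ}
    (h : Partner F z w) (h' : Partner F z w') : w = w' := by
  have heq : two z w = two z w' := by
    by_contra hne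
    have hd := hF.idio.1.1.disjoint _ h.2 _ h'.2 hne
    exact Set.disjoint_left.1 hd (ipt_mem_interior Set.subset_union_left)
      (ipt_mem_interior Set.subset_union_left)
  have hw : ipt w ∈ two z w' := by
    rw [← heq]
    exact Or.inr (pt_mem _ _)
  rcases hw with hw | hw
  · rw [mem_square_iff] at hw
    exact absurd hw.symm h.1
  · rwa [mem_square_iff] at hw

/-- Symmetries preserve the partner relation. -/
lemma Good.map_partner {x y : ℤ} {F : Set (Set Plane)} (hF : Good x y F) {g : Plane ≃ᵢ Plane}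
    (hg : IsSymmetry F g) {z w : ℤ × ℤ} (h : Partner F z w) :
    ∃ z' w', Partner F z' w' ∧ g '' two z w = two z' w' ∧ g (ipt z) = ipt z' ∧
      g (ipt w) = ipt w' := by
  have hmem : g '' two z w ∈ F := by
    rw [← hg]
    exact ⟨_, h.2, rfl⟩
  obtain ⟨z', w', hp, heq⟩ := hF.grid' hmem
  rcases map_two_squares g (hF.disjoint_two h.2) (hF.disjoint_two hp.2) heq with h1 | h1
  · exact ⟨z', w', hp, heq, h1⟩
  · exact ⟨w', z', hp.symm, by rw [two_comm w' z']; exact heq, h1⟩

lemma Good.map_partner' {x y : ℤ} {F : Set (Set Plane)} (hF : Good x y F) {g : Plane ≃ᵢ Plane}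
    (hg : IsSymmetry F g) {z w z' w' : ℤ × ℤ} (h : Partner F z w) (h' : Partner F z' w')
    (hz : g (ipt z) = ipt z') : g (ipt w) = ipt w' := by
  obtain ⟨z'', w'', hp, -, h1, h2⟩ := hF.map_partner hg h
  have : z'' = z' := ipt_injective (h1.symm.trans hz)
  subst this
  rw [h2, hF.partner_unique hp h']

/-- Some symmetry exchanges the two squares of a tile. -/
lemma Good.exists_exchange {x y : ℤ} {F : Set (Set Plane)} (hF : Good x y F) {z w : ℤ × ℤ}
    (h : Partner F z w) :
    ∃ g, IsSymmetry F g ∧ g '' two z w = two z w ∧ g (ipt z) = ipt w ∧ g (ipt w) = ipt z := by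
  have hz : ipt z ∈ two z w := Or.inl (pt_mem _ _)
  have hw : ipt w ∈ two z w := Or.inr (pt_mem _ _)
  obtain ⟨g, hg, hgt, hgC⟩ := hF.idio.2.2 _ h.2 _ ⟨ipt z, hz, rfl⟩ _ ⟨ipt w, hw, rfl⟩
  have hdis := hF.disjoint_two h.2
  refine ⟨g, hg, hgt, ?_⟩
  unfold two ipt at hgC
  rw [component_eq hdis (pt_mem _ _), component_eq' hdis (pt_mem _ _)] at hgC
  have h1 : g (ipt z) = ipt w := map_center g hgC
  exact ⟨h1, hF.map_partner' hg h h.symm h1⟩

lemma IsSymmetry.trans {F : Set (Set Plane)} {g h : Plane ≃ᵢ Plane} (hg : IsSymmetry F g)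
    (hh : IsSymmetry F h) : IsSymmetry F (g.trans h) := by
  unfold IsSymmetry at *
  have h2 : (g.trans h : Plane → Plane) = h ∘ g := rfl
  have : (fun t : Set Plane => (g.trans h) '' t) =
      (fun t : Set Plane => h '' t) ∘ (fun t : Set Plane => g '' t) := by
    ext1 t
    show (g.trans h) '' t = h '' (g '' t)
    rw [h2, Set.image_comp]
  rw [this, Set.image_comp, hg, hh]

lemma IsSymmetry.symm {F : Set (Set Plane)} {g : Plane ≃ᵢ Plane} (hg : IsSymmetry F g) :
    IsSymmetry F g.symm := by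
  have hgg : (g.symm ∘ g : Plane → Plane) = id := by ext1 p; simp
  unfold IsSymmetry at *
  conv_lhs => rw [← hg]
  rw [← Set.image_comp]
  have : (fun t : Set Plane => g.symm '' t) ∘ (fun t : Set Plane => g '' t) = id := by
    ext1 t
    show g.symm '' (g '' t) = t
    rw [← Set.image_comp, hgg, Set.image_id]
  rw [this, Set.image_id]

lemma Good.exists_move {x y : ℤ} {F : Set (Set Plane)} (hF : Good x y F) (z z' : ℤ × ℤ) :
    ∃ g, IsSymmetry F g ∧ g (ipt z) = ipt z' := by
  obtain ⟨w, hw⟩ := hF.exists_partner z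
  obtain ⟨w', hw'⟩ := hF.exists_partner z'
  obtain ⟨g, hg, hgt⟩ := hF.idio.2.1 _ hw.2 _ hw'.2
  have hdis := hF.disjoint_two hw.2
  have hdis' := hF.disjoint_two hw'.2
  rcases map_two_squares g hdis hdis' hgt with h1 | h1
  · exact ⟨g, hg, h1.1⟩
  · obtain ⟨k, hk, -, hk1, hk2⟩ := hF.exists_exchange hw'
    refine ⟨g.trans k, hg.trans hk, ?_⟩
    rw [IsometryEquiv.trans_apply]
    rw [show g (ipt z) = ipt w' from h1.1]
    exact hk2

/-- Both coordinate differences of partners are even when `x` and `y` are even. -/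
lemma Good.even_diff {x y : ℤ} {F : Set (Set Plane)} (hF : Good x y F) (hx : Even x)
    (hy : Even y) {z w : ℤ × ℤ} (h : Partner F z w) :
    Even (w.1 - z.1) ∧ Even (w.2 - z.2) := by
  obtain ⟨g, hg⟩ := hF.idio.1.2 _ h.2
  have h0 := tile_disjoint hF.hxy
  have h1 := hF.disjoint_two h.2
  have hd : dist (ipt z) (ipt w) ^ 2 = dist (pt 0 0) (pt x y) ^ 2 := by
    rcases map_two_squares g h0 h1 hg with h2 | h2
    · rw [show ipt z = g (pt 0 0) from h2.1.symm, show ipt w = g (pt x y) from h2.2.symm,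
        g.dist_eq]
    · rw [show ipt w = g (pt 0 0) from h2.1.symm, show ipt z = g (pt x y) from h2.2.symm,
        g.dist_eq, dist_comm]
  rw [dist_sq_eq, dist_sq_eq] at hd
  simp only [ipt, pt_zero, pt_one] at hd
  have hd' : (z.1 - w.1) ^ 2 + (z.2 - w.2) ^ 2 = (0 - x) ^ 2 + (0 - y) ^ 2 := by
    exact_mod_cast hd
  obtain ⟨k, rfl⟩ := hx
  obtain ⟨l, rfl⟩ := hy
  have h4 : ((z.1 - w.1) ^ 2 + (z.2 - w.2) ^ 2) % 4 = 0 := by
    rw [hd']
    have : (0 - (k + k)) ^ 2 + (0 - (l + l)) ^ 2 = 4 * (k ^ 2 + l ^ 2) := by ring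
    rw [this]
    omega
  have key : ∀ m n : ℤ, (m ^ 2 + n ^ 2) % 4 = 0 → m % 2 = 0 ∧ n % 2 = 0 := by
    intro m n hmn
    rcases Int.emod_two_eq_zero_or_one m with hm | hm <;>
      rcases Int.emod_two_eq_zero_or_one n with hn | hn
    · exact ⟨hm, hn⟩
    · exfalso
      obtain ⟨a, ha⟩ : ∃ a, m = 2 * a := ⟨m / 2, by omega⟩
      obtain ⟨b, hb⟩ : ∃ b, n = 2 * b + 1 := ⟨n / 2, by omega⟩
      subst ha hb
      ring_nf at hmn
      omega
    · exfalso
      obtain ⟨a, ha⟩ : ∃ a, m = 2 * a + 1 := ⟨m / 2, by omega⟩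
      obtain ⟨b, hb⟩ : ∃ b, n = 2 * b := ⟨n / 2, by omega⟩
      subst ha hb
      ring_nf at hmn
      omega
    · exfalso
      obtain ⟨a, ha⟩ : ∃ a, m = 2 * a + 1 := ⟨m / 2, by omega⟩
      obtain ⟨b, hb⟩ : ∃ b, n = 2 * b + 1 := ⟨n / 2, by omega⟩
      subst ha hb
      ring_nf at hmn
      omega
  obtain ⟨h5, h6⟩ := key _ _ h4
  rw [Int.even_iff, Int.even_iff]
  omega

/-- There is no grid-aligned idiomeric tiling by `T(x,y)` when `x` and `y` are both even. -/
theorem not_good {x y : ℤ} (hx : Even x) (hy : Even y) (F : Set (Set Plane)) :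
    ¬ Good x y F := by
  intro hF
  obtain ⟨p, hp⟩ := hF.exists_partner 0
  obtain ⟨h1, h2⟩ := hF.even_diff hx hy hp
  simp only [Prod.fst_zero, Prod.snd_zero, sub_zero] at h1 h2
  obtain ⟨a, ha⟩ := h1
  obtain ⟨b, hb⟩ := h2
  -- the midpoint
  set c : ℤ × ℤ := (a, b) with hc
  obtain ⟨c', hc'⟩ := hF.exists_partner c
  have hmid : midpoint ℝ (ipt 0) (ipt p) = ipt c := by
    have hp1 : (p.1 : ℝ) = a + a := by exact_mod_cast ha
    have hp2 : (p.2 : ℝ) = b + b := by exact_mod_cast hb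
    rw [midpoint_eq_smul_add]
    apply plane_ext
    · simp [ipt, hc, hp1]
      ring
    · simp [ipt, hc, hp2]
      ring
  obtain ⟨h, hh, -, hh0, hhp⟩ := hF.exists_exchange hp
  have hhc : h (ipt c) = ipt c := by
    rw [← hmid, IsometryEquiv.map_midpoint, hh0, hhp, midpoint_comm]
  have hhc' : h (ipt c') = ipt c' := hF.map_partner' hh hc' hc' hhc
  obtain ⟨k, hk, hk0⟩ := hF.exists_move 0 c
  have hkp : k (ipt p) = ipt c' := hF.map_partner' hk hp hc' hk0
  -- conjugate
  set r : Plane ≃ᵢ Plane := (k.trans h).trans k.symm with hr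
  have hrs : IsSymmetry F r := (hk.trans hh).trans hk.symm
  have hrapp : ∀ q, k (r q) = h (k q) := by
    intro q
    rw [hr]
    simp [IsometryEquiv.trans_apply]
  have hr0 : r (ipt 0) = ipt 0 := k.injective (by rw [hrapp, hk0, hhc])
  have hrp : r (ipt p) = ipt p := k.injective (by rw [hrapp, hkp, hhc'])
  have hrc : r (ipt c) = ipt c := by
    rw [← hmid, IsometryEquiv.map_midpoint, hr0, hrp]
  have hrc' : r (ipt c') = ipt c' := hF.map_partner' hrs hc' hc' hrc
  -- `c'` is equidistant from `0` and `p`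
  have heqd : dist (ipt c') (ipt 0) ^ 2 = dist (ipt c') (ipt p) ^ 2 := by
    rw [← h.dist_eq (ipt c') (ipt 0), hhc', hh0]
  rw [dist_sq_eq, dist_sq_eq] at heqd
  simp only [ipt, pt_zero, pt_one, Prod.fst_zero, Prod.snd_zero, Int.cast_zero, sub_zero] at heqd
  have heq2 : c'.1 ^ 2 + c'.2 ^ 2 = (c'.1 - p.1) ^ 2 + (c'.2 - p.2) ^ 2 := by
    exact_mod_cast heqd
  have hdet : (p.1 * c'.2 - p.2 * c'.1 : ℤ) ≠ 0 := by
    intro h0
    rw [ha, hb] at h0 heq2
    have e1 : a * (c'.1 - a) + b * (c'.2 - b) = 0 := by nlinarith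
    have e2 : a * (c'.2 - b) - b * (c'.1 - a) = 0 := by nlinarith
    have e3 : (a ^ 2 + b ^ 2) * (c'.1 - a) = 0 := by
      have : (a ^ 2 + b ^ 2) * (c'.1 - a) = a * (a * (c'.1 - a) + b * (c'.2 - b)) -
        b * (a * (c'.2 - b) - b * (c'.1 - a)) := by ring
      rw [this, e1, e2]; ring
    have e4 : (a ^ 2 + b ^ 2) * (c'.2 - b) = 0 := by
      have : (a ^ 2 + b ^ 2) * (c'.2 - b) = b * (a * (c'.1 - a) + b * (c'.2 - b)) +
        a * (a * (c'.2 - b) - b * (c'.1 - a)) := by ring
      rw [this, e1, e2]; ring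
    have e5 : a ^ 2 + b ^ 2 ≠ 0 := by
      intro h5
      have ha0 : a = 0 := by nlinarith [sq_nonneg a, sq_nonneg b]
      have hb0 : b = 0 := by nlinarith [sq_nonneg a, sq_nonneg b]
      apply hp.1
      ext
      · simp [ha, ha0]
      · simp [hb, hb0]
    have e6 : c'.1 - a = 0 := (mul_eq_zero.1 e3).resolve_left e5
    have e7 : c'.2 - b = 0 := (mul_eq_zero.1 e4).resolve_left e5
    apply hc'.1
    ext
    · simp only [hc]; omega
    · simp only [hc]; omega
  -- hence `r` is the identity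
  have hid : ∀ q, r q = q := by
    intro q
    have d0 : dist (r q) (ipt 0) ^ 2 = dist q (ipt 0) ^ 2 := by
      conv_lhs => rw [← hr0, r.dist_eq]
    have dp : dist (r q) (ipt p) ^ 2 = dist q (ipt p) ^ 2 := by
      conv_lhs => rw [← hrp, r.dist_eq]
    have dc : dist (r q) (ipt c') ^ 2 = dist q (ipt c') ^ 2 := by
      conv_lhs => rw [← hrc', r.dist_eq]
    rw [dist_sq_eq, dist_sq_eq] at d0 dp dc
    simp only [ipt, pt_zero, pt_one, Prod.fst_zero, Prod.snd_zero, Int.cast_zero, sub_zero]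
      at d0 dp dc
    have hdetR : ((p.1 : ℝ) * c'.2 - p.2 * c'.1) ≠ 0 := by exact_mod_cast hdet
    have f1 : (p.1 : ℝ) * (r q 0 - q 0) + p.2 * (r q 1 - q 1) = 0 := by linarith
    have f2 : (c'.1 : ℝ) * (r q 0 - q 0) + c'.2 * (r q 1 - q 1) = 0 := by linarith
    have f3 : ((p.1 : ℝ) * c'.2 - p.2 * c'.1) * (r q 0 - q 0) = 0 := by
      have : ((p.1 : ℝ) * c'.2 - p.2 * c'.1) * (r q 0 - q 0) =
        c'.2 * ((p.1 : ℝ) * (r q 0 - q 0) + p.2 * (r q 1 - q 1)) -
        p.2 * ((c'.1 : ℝ) * (r q 0 - q 0) + c'.2 * (r q 1 - q 1)) := by ring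
      rw [this, f1, f2]; ring
    have f4 : ((p.1 : ℝ) * c'.2 - p.2 * c'.1) * (r q 1 - q 1) = 0 := by
      have : ((p.1 : ℝ) * c'.2 - p.2 * c'.1) * (r q 1 - q 1) =
        p.1 * ((c'.1 : ℝ) * (r q 0 - q 0) + c'.2 * (r q 1 - q 1)) -
        c'.1 * ((p.1 : ℝ) * (r q 0 - q 0) + p.2 * (r q 1 - q 1)) := by ring
      rw [this, f1, f2]; ring
    have f5 := (mul_eq_zero.1 f3).resolve_left hdetR
    have f6 := (mul_eq_zero.1 f4).resolve_left hdetR
    exact plane_ext (by linarith) (by linarith)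
  have hcontra : h (ipt 0) = ipt 0 := by
    have := hrapp (k.symm (ipt 0))
    rw [hid, IsometryEquiv.apply_symm_apply] at this
    exact this.symm
  rw [hh0] at hcontra
  exact hp.1 (ipt_injective hcontra).symm

end Pool.Agent.Lib.MP_15d263_co
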